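import Pool.Agent.W662.SK.StmtsB

set_option autoImplicit false

open scoped InnerProductSpace ENNReal
open Filter Topology

namespace Pool.Agent.W298.SK.B6

open Pool.Agent.W662.SK

theorem b6 (h0 : S_B0) (h1 : S_B1) (h2 : S_B2) : S_B6 := by
  intro Γ K _ _ _ _ π
  obtain ⟨sm, ss, sa, sc, s1, sn⟩ := h0 Γ K π
  obtain ⟨jm, js, cm, cs, c1⟩ := h1 Γ K
  have i2 := h2 Γ K π
  have add : ∀ {a b : L2 Γ K →L[ℂ] L2 Γ K}, a ∈ Aset π → b ∈ Aset π → a + b ∈ Aset π := by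
    rintro _ _ ⟨j, hj, c, hc, rfl⟩ ⟨j', hj', c', hc', rfl⟩
    refine ⟨j + j', (Jd Γ K).add_mem hj hj', c + c', (Cr Γ K).add_mem hc hc', ?_⟩
    rw [sa]
    abel
  have zero : (0 : L2 Γ K →L[ℂ] L2 Γ K) ∈ Aset π := by
    refine ⟨0, (Jd Γ K).zero_mem, 0, (Cr Γ K).zero_mem, ?_⟩
    have : sg π (0 : L2 Γ K →L[ℂ] L2 Γ K) = 0 := by
      have := sc 0 0
      simpa using this
    rw [this, add_zero]
  have mul : ∀ {a b : L2 Γ K →L[ℂ] L2 Γ K}, a ∈ Aset π → b ∈ Aset π → a * b ∈ Aset π := by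
    rintro _ _ ⟨j, hj, c, hc, rfl⟩ ⟨j', hj', c', hc', rfl⟩
    refine ⟨j * j' + (j * sg π c' + sg π c * j'), (Jd Γ K).add_mem (jm j hj j' hj')
      ((Jd Γ K).add_mem (i2 c' hc' j hj).2 (i2 c hc j' hj').1), c * c', cm c hc c' hc', ?_⟩
    rw [sm]
    noncomm_ring
  have smul : ∀ (r : ℂ) {a : L2 Γ K →L[ℂ] L2 Γ K}, a ∈ Aset π → r • a ∈ Aset π := by
    rintro r _ ⟨j, hj, c, hc, rfl⟩
    refine ⟨r • j, (Jd Γ K).smul_mem r hj, r • c, (Cr Γ K).smul_mem r hc, ?_⟩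
    rw [sc, smul_add]
  have st : ∀ {a : L2 Γ K →L[ℂ] L2 Γ K}, a ∈ Aset π → star a ∈ Aset π := by
    rintro _ ⟨j, hj, c, hc, rfl⟩
    refine ⟨star j, js j hj, star c, cs c hc, ?_⟩
    rw [ss, star_add]
  exact ⟨{ carrier := Aset π
           add_mem' := add
           zero_mem' := zero
           mul_mem' := mul
           smul_mem' := smul
           star_mem' := st }, rfl⟩

end Pool.Agent.W298.SK.B6
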