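import Pool.Agent.W662.SK.StmtsB

set_option autoImplicit false

open scoped InnerProductSpace ENNReal
open Filter Topology

namespace Pool.Agent.W298.SK.B7

open Pool.Agent.W662.SK

lemma lft_cont {I E F : Type} [NormedAddCommGroup E] [InnerProductSpace ℂ E]
    [NormedAddCommGroup F] [InnerProductSpace ℂ F] :
    Continuous (fun T : E →L[ℂ] F => lft I T) := by
  have : LipschitzWith 1 (fun T : E →L[ℂ] F => lft I T) := by
    refine LipschitzWith.of_dist_le_mul fun S T => ?_
    rw [dist_eq_norm, dist_eq_norm, ← lft_sub, NNReal.coe_one, one_mul]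
    exact norm_lft_le _
  exact this.continuous

lemma sg_cont {Γ K : Type} [Group Γ] [NormedAddCommGroup K] [InnerProductSpace ℂ K]
    (π : Γ →* (K ≃ₗᵢ[ℂ] K)) : Continuous (fun c : L2 Γ K →L[ℂ] L2 Γ K => sg π c) := by
  unfold sg
  exact continuous_const.clm_comp (continuous_id.clm_comp continuous_const)

theorem b7 : S_B7 := by
  intro Γ K _ _ _ _ _ _ π
  have hG : ∀ g : Γ, Continuous (fun p : K × K => Gop p.1 p.2 g) := by
    intro g
    have h1 : Continuous (fun p : K × K => InnerProductSpace.rankOne ℂ p.1 p.2) := by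
      have h2 : Continuous (fun p : K × K =>
          ContinuousLinearMap.smulRightL ℂ K K (innerSL ℂ p.2) p.1) :=
        (ContinuousLinearMap.smulRightL ℂ K K).continuous₂.comp
          (((innerSL ℂ (E := K)).continuous.comp continuous_snd).prodMk continuous_fst)
      refine h2.congr fun p => ?_
      ext z
      simp
    unfold Gop
    exact (lft_cont.comp h1).clm_comp continuous_const
  have hJ0 : TopologicalSpace.IsSeparable {T | ∃ (x y : K) (g : Γ), T = Gop x y g} := by
    have e : {T | ∃ (x y : K) (g : Γ), T = Gop x y g} =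
        ⋃ g : Γ, Set.range (fun p : K × K => Gop p.1 p.2 g) := by
      ext T
      simp only [Set.mem_ofPred_eq, Set.mem_iUnion, Set.mem_range, Prod.exists]
      constructor
      · rintro ⟨x, y, g, rfl⟩
        exact ⟨g, x, y, rfl⟩
      · rintro ⟨g, x, y, rfl⟩
        exact ⟨x, y, g, rfl⟩
    rw [e]
    exact TopologicalSpace.IsSeparable.iUnion fun g => TopologicalSpace.isSeparable_range (hG g)
  have hJ : TopologicalSpace.IsSeparable (Jd Γ K : Set (L2 Γ K →L[ℂ] L2 Γ K)) := by
    unfold Jd
    rw [Submodule.topologicalClosure_coe]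
    exact (hJ0.span (R := ℂ)).closure
  have hC : TopologicalSpace.IsSeparable (Cr Γ K : Set (L2 Γ K →L[ℂ] L2 Γ K)) := by
    unfold Cr
    rw [Submodule.topologicalClosure_coe]
    exact ((Set.countable_range _).isSeparable.span (R := ℂ)).closure
  have hm : Continuous (fun q : (L2 Γ K →L[ℂ] L2 Γ K) × (L2 Γ K →L[ℂ] L2 Γ K) =>
      q.1 + sg π q.2) := continuous_fst.add ((sg_cont π).comp continuous_snd)
  have hP := (hJ.prod hC).image hm
  refine hP.mono ?_
  rintro _ ⟨j, hj, c, hc, rfl⟩
  exact ⟨(j, c), ⟨hj, hc⟩, rfl⟩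

end Pool.Agent.W298.SK.B7
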