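import Pool.Agent.W662.SK.StmtsB

set_option autoImplicit false

open scoped InnerProductSpace ENNReal
open Filter Topology

namespace Pool.Agent.W298.SK.B8

open Pool.Agent.W662.SK

lemma diag_le {Γ K : Type} [NormedAddCommGroup K] [InnerProductSpace ℂ K] {ε : ℝ} (hε : 0 ≤ ε)
    (T : L2 Γ K →L[ℂ] L2 Γ K) (h : ∀ f k, ‖T f k‖ ≤ ε * ‖f k‖) : ‖T‖ ≤ ε := by
  refine ContinuousLinearMap.opNorm_le_bound _ hε fun f => ?_
  have h1 : ‖T f‖ ≤ ‖((ε : ℂ) • f : L2 Γ K)‖ := by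
    refine lp.norm_mono two_ne_zero fun k => ?_
    rw [l2_smul_apply, norm_smul, Complex.norm_real, Real.norm_eq_abs, abs_of_nonneg hε]
    exact h f k
  rwa [norm_smul, Complex.norm_real, Real.norm_eq_abs, abs_of_nonneg hε] at h1

theorem b8 : S_B8 := by
  intro Γ K _ _ _ _ π π' ε hε h c
  have h1 : ‖cl (Wop π) - cl (Wop π')‖ ≤ ε := by
    refine diag_le hε _ fun f k => ?_
    have := (cl (π k) - cl (π' k)).le_of_opNorm_le (h k) (f k)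
    exact this
  have h2 : ‖cl (Wop π).symm - cl (Wop π').symm‖ ≤ ε := by
    refine diag_le hε _ fun f k => ?_
    have := (cl (π k⁻¹) - cl (π' k⁻¹)).le_of_opNorm_le (h k⁻¹) (f k)
    rw [map_inv, map_inv] at this
    exact this
  have e : sg π c - sg π' c = (cl (Wop π) - cl (Wop π')) * (c * cl (Wop π).symm) +
      cl (Wop π') * (c * (cl (Wop π).symm - cl (Wop π').symm)) := by
    have e1 : sg π c = cl (Wop π) * (c * cl (Wop π).symm) := rfl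
    have e2 : sg π' c = cl (Wop π') * (c * cl (Wop π').symm) := rfl
    rw [e1, e2]
    noncomm_ring
  rw [e]
  have n1 := norm_cl_le (Wop π).symm
  have n2 := norm_cl_le (Wop π')
  calc _ ≤ ‖(cl (Wop π) - cl (Wop π')) * (c * cl (Wop π).symm)‖ +
        ‖cl (Wop π') * (c * (cl (Wop π).symm - cl (Wop π').symm))‖ := norm_add_le _ _
    _ ≤ ‖cl (Wop π) - cl (Wop π')‖ * (‖c‖ * ‖cl (Wop π).symm‖) +
        ‖cl (Wop π')‖ * (‖c‖ * ‖cl (Wop π).symm - cl (Wop π').symm‖) := by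
        refine add_le_add ?_ ?_
        · exact (norm_mul_le _ _).trans (mul_le_mul_of_nonneg_left (norm_mul_le _ _)
            (norm_nonneg _))
        · exact (norm_mul_le _ _).trans (mul_le_mul_of_nonneg_left (norm_mul_le _ _)
            (norm_nonneg _))
    _ ≤ ε * (‖c‖ * 1) + 1 * (‖c‖ * ε) := by gcongr
    _ = 2 * ε * ‖c‖ := by ring

lemma near (h0 : S_B0) (h4 : S_B4) {Γ K : Type} [Group Γ] [NormedAddCommGroup K]
    [InnerProductSpace ℂ K] [CompleteSpace K] (π π' : Γ →* (K ≃ₗᵢ[ℂ] K)) (ε : ℝ) (hε : 0 ≤ ε)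
    (h : ∀ g, ‖cl (π g) - cl (π' g)‖ ≤ ε) (hs : HasShift π) (x : L2 Γ K →L[ℂ] L2 Γ K)
    (hx : x ∈ Aset π) (hx1 : ‖x‖ ≤ 1) : ∃ y, (y ∈ Aset π' ∧ ‖y‖ ≤ 1) ∧ dist x y ≤ 4 * ε := by
  obtain ⟨j, hj, c, hc, rfl⟩ := hx
  obtain ⟨sm, ss, sa, sc, s1, sn⟩ := h0 Γ K π'
  have hc1 : ‖c‖ ≤ 1 := (h4 Γ K π hs j hj c hc).trans hx1
  have hd : ‖(j + sg π c) - (j + sg π' c)‖ ≤ 2 * ε := by
    rw [add_sub_add_left_eq_sub]
    refine (b8 Γ K π π' ε hε h c).trans ?_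
    calc 2 * ε * ‖c‖ ≤ 2 * ε * 1 := by gcongr
      _ = 2 * ε := by ring
  by_cases hy : ‖j + sg π' c‖ ≤ 1
  · refine ⟨j + sg π' c, ⟨⟨j, hj, c, hc, rfl⟩, hy⟩, ?_⟩
    rw [dist_eq_norm]
    linarith
  · push Not at hy
    set y0 := j + sg π' c with hy0
    have hpos : 0 < ‖y0‖ := by linarith
    have hn0 : ‖((‖y0‖⁻¹ : ℝ) : ℂ)‖ = ‖y0‖⁻¹ := by
      rw [Complex.norm_real, Real.norm_eq_abs, abs_of_pos (inv_pos.2 hpos)]
    refine ⟨((‖y0‖⁻¹ : ℝ) : ℂ) • y0, ⟨⟨((‖y0‖⁻¹ : ℝ) : ℂ) • j, (Jd Γ K).smul_mem _ hj,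
      ((‖y0‖⁻¹ : ℝ) : ℂ) • c, (Cr Γ K).smul_mem _ hc, ?_⟩, ?_⟩, ?_⟩
    · rw [sc, ← smul_add]
    · rw [norm_smul, hn0, inv_mul_cancel₀ hpos.ne']
    · have h1 : ‖y0‖ ≤ 1 + 2 * ε := by
        have : y0 = (j + sg π c) - ((j + sg π c) - y0) := by abel
        calc ‖y0‖ = ‖(j + sg π c) - ((j + sg π c) - y0)‖ := by rw [← this]
          _ ≤ ‖j + sg π c‖ + ‖(j + sg π c) - y0‖ := norm_sub_le _ _
          _ ≤ _ := by linarith
      have h2 : ‖y0 - ((‖y0‖⁻¹ : ℝ) : ℂ) • y0‖ = ‖y0‖ - 1 := by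
        have e : y0 - ((‖y0‖⁻¹ : ℝ) : ℂ) • y0 = ((1 - ‖y0‖⁻¹ : ℝ) : ℂ) • y0 := by
          push_cast
          rw [sub_smul, one_smul]
        rw [e, norm_smul, Complex.norm_real, Real.norm_eq_abs, abs_of_nonneg, sub_mul,
          inv_mul_cancel₀ hpos.ne', one_mul]
        have : ‖y0‖⁻¹ ≤ 1 := inv_le_one_of_one_le₀ hy.le
        linarith
      rw [dist_eq_norm]
      calc ‖(j + sg π c) - ((‖y0‖⁻¹ : ℝ) : ℂ) • y0‖ =
          ‖((j + sg π c) - y0) + (y0 - ((‖y0‖⁻¹ : ℝ) : ℂ) • y0)‖ := by congr 1; abel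
        _ ≤ ‖(j + sg π c) - y0‖ + ‖y0 - ((‖y0‖⁻¹ : ℝ) : ℂ) • y0‖ := norm_add_le _ _
        _ ≤ _ := by rw [h2]; linarith

theorem b9 (h0 : S_B0) (h4 : S_B4) : S_B9 := by
  intro Γ K _ _ _ _ π π' ε hε h hs hs'
  have h' : ∀ g, ‖cl (π' g) - cl (π g)‖ ≤ ε := fun g => by rw [norm_sub_rev]; exact h g
  refine Metric.hausdorffDist_le_of_mem_dist (by positivity) ?_ ?_
  · rintro x ⟨hx, hx1⟩
    obtain ⟨y, hy, hxy⟩ := near h0 h4 π π' ε hε h hs x hx hx1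
    exact ⟨y, hy, hxy⟩
  · rintro x ⟨hx, hx1⟩
    obtain ⟨y, hy, hxy⟩ := near h0 h4 π' π ε hε h' hs' x hx hx1
    exact ⟨y, hy, hxy⟩

end Pool.Agent.W298.SK.B8
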